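import Pool.Agent.J4.H76.BP.Fail

/-!
# The pointwise BPB property for compact operators does not imply the pointwise BPB property

Over `𝕜 = ℝ` and over `𝕜 = ℂ`, for the uniformly convex and uniformly smooth space
`X = 𝕜 ⊕₄ ℓ₂` there is a Banach space `Y` such that `(X, Y)` has the pointwise
Bishop-Phelps-Bollobas property for compact operators, but fails the pointwise
Bishop-Phelps-Bollobas property.
-/

open scoped ENNReal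

namespace Pool.Agent.Results.MP_a54cc7_an.CompactNotFull

/-- The pair `(X, Y)` has the pointwise Bishop-Phelps-Bollobas property: the class `P`. -/
def PointwiseBPB (𝕜 : Type) [RCLike 𝕜] (X Y : Type) [NormedAddCommGroup X] [NormedSpace 𝕜 X]
    [NormedAddCommGroup Y] [NormedSpace 𝕜 Y] : Prop :=
  ∀ ε : ℝ, 0 < ε → ∃ η : ℝ, 0 < η ∧ ∀ T : X →L[𝕜] Y, ‖T‖ = 1 → ∀ x₀ : X, ‖x₀‖ = 1 →
    1 - η < ‖T x₀‖ → ∃ S : X →L[𝕜] Y, ‖S‖ = 1 ∧ ‖S x₀‖ = 1 ∧ ‖S - T‖ < ε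

/-- The compact version: the class `P_K`. -/
def PointwiseBPBCompact (𝕜 : Type) [RCLike 𝕜] (X Y : Type) [NormedAddCommGroup X]
    [NormedSpace 𝕜 X] [NormedAddCommGroup Y] [NormedSpace 𝕜 Y] : Prop :=
  ∀ ε : ℝ, 0 < ε → ∃ η : ℝ, 0 < η ∧ ∀ T : X →L[𝕜] Y, IsCompactOperator T → ‖T‖ = 1 →
    ∀ x₀ : X, ‖x₀‖ = 1 → 1 - η < ‖T x₀‖ →
      ∃ S : X →L[𝕜] Y, IsCompactOperator S ∧ ‖S‖ = 1 ∧ ‖S x₀‖ = 1 ∧ ‖S - T‖ < ε

/-- The space `𝕜 ⊕₄ ℓ₂`. -/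
abbrev Dom (𝕜 : Type) [RCLike 𝕜] : Type := WithLp 4 (𝕜 × lp (fun _ : ℕ => 𝕜) 2)

/-- For `X = 𝕜 ⊕₄ ℓ₂` there is a Banach space `Y` such that the pair `(X, Y)` belongs to `P_K`
but not to `P`. -/
theorem result (𝕜 : Type) [RCLike 𝕜] :
    ∃ (Y : Type) (_ : NormedAddCommGroup Y) (_ : NormedSpace 𝕜 Y) (_ : CompleteSpace Y),
      CompleteSpace (Dom 𝕜) ∧ PointwiseBPBCompact 𝕜 (Dom 𝕜) Y ∧ ¬ PointwiseBPB 𝕜 (Dom 𝕜) Y := by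
  have e : HilbertBasis ℕ 𝕜 (lp (fun _ : ℕ => 𝕜) 2) :=
    HilbertBasis.ofRepr (LinearIsometryEquiv.refl 𝕜 _)
  exact ⟨H76BP.YY 𝕜 (lp (fun _ : ℕ => 𝕜) 2), inferInstance, inferInstance, inferInstance,
    inferInstance, H76BP.pk e, H76BP.not_p e⟩

end Pool.Agent.Results.MP_a54cc7_an.CompactNotFull
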